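import Pool.Agent.Lib_helper71.Normal.Defs

/-!
Module W1 for MP_f09850_nt: Weyl's criterion along `b ^ j * ξ` gives simple normality in base `b`.
-/

set_option autoImplicit false

namespace Pool.Agent.Lib_helper71.Normal

open Filter Topology MeasureTheory

/-- The circle of length one. -/
abbrev Circ := AddCircle (1 : ℝ)

/-- The averages along `x` of a function on the circle. -/
noncomputable def avg (x : ℕ → Circ) (f : Circ → ℂ) (N : ℕ) : ℂ :=
  (∑ j ∈ Finset.range N, f (x j)) / N

lemma avg_diff_le (x : ℕ → Circ) (f g : C(Circ, ℂ)) (N : ℕ) :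
    ‖avg x f N - avg x g N‖ ≤ ‖f - g‖ := by
  unfold avg
  rw [← sub_div, ← Finset.sum_sub_distrib, norm_div, Complex.norm_natCast]
  rcases Nat.eq_zero_or_pos N with h | h
  · subst h; simp
  · have hN : (0 : ℝ) < N := by exact_mod_cast h
    rw [div_le_iff₀ hN]
    calc ‖∑ j ∈ Finset.range N, (f (x j) - g (x j))‖
        ≤ ∑ j ∈ Finset.range N, ‖f (x j) - g (x j)‖ := norm_sum_le _ _
      _ ≤ ∑ j ∈ Finset.range N, ‖f - g‖ := by
          apply Finset.sum_le_sum
          intro j _
          exact (f - g).norm_coe_le_norm (x j)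
      _ = ‖f - g‖ * N := by simp [mul_comm]

lemma integral_fourier_ne {n : ℤ} (hn : n ≠ 0) :
    ∫ t : Circ, fourier n t ∂AddCircle.haarAddCircle = 0 :=
  integral_eq_zero_of_add_right_eq_neg (μ := AddCircle.haarAddCircle)
      (fourier_add_half_inv_index hn (by norm_num : (0 : ℝ) < 1))

/-- Weyl's criterion: from characters to continuous functions. -/
theorem avg_continuous (x : ℕ → Circ)
    (h : ∀ n : ℤ, n ≠ 0 → Tendsto (fun N : ℕ => avg x (fourier n) N) atTop (𝓝 0))
    (f : C(Circ, ℂ)) :
    Tendsto (fun N : ℕ => avg x f N) atTop (𝓝 (∫ t, f t ∂AddCircle.haarAddCircle)) := by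
  let S : Submodule ℂ C(Circ, ℂ) :=
    { carrier := {f | Tendsto (fun N : ℕ => avg x f N) atTop
        (𝓝 (∫ t, f t ∂AddCircle.haarAddCircle))}
      add_mem' := by
        intro f g hf hg
        have := Tendsto.add hf hg
        have hi : ∫ t, (f + g) t ∂AddCircle.haarAddCircle =
            (∫ t, f t ∂AddCircle.haarAddCircle) + ∫ t, g t ∂AddCircle.haarAddCircle := by
          simp only [ContinuousMap.add_apply]
          exact integral_add (f.continuous.integrable_of_hasCompactSupport
            (HasCompactSupport.of_compactSpace _)) (g.continuous.integrable_of_hasCompactSupport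
            (HasCompactSupport.of_compactSpace _))
        simp only [Set.mem_ofPred_eq]
        rw [hi]
        refine this.congr ?_
        intro N
        simp only [avg, ContinuousMap.add_apply, Finset.sum_add_distrib, add_div]
      zero_mem' := by
        simp only [Set.mem_ofPred_eq, avg]
        simp
      smul_mem' := by
        intro c f hf
        have := Tendsto.const_mul c hf
        have hi : ∫ t, (c • f) t ∂AddCircle.haarAddCircle =
            c * (∫ t, f t ∂AddCircle.haarAddCircle) := by
          simp only [ContinuousMap.smul_apply, smul_eq_mul]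
          exact integral_const_mul _ _
        simp only [Set.mem_ofPred_eq]
        rw [hi]
        refine this.congr ?_
        intro N
        simp only [avg, ContinuousMap.smul_apply, smul_eq_mul, ← Finset.mul_sum, mul_div_assoc] }
  have hclosed : IsClosed (S : Set C(Circ, ℂ)) := by
    rw [← isSeqClosed_iff_isClosed]
    intro u f hu hlim
    change Tendsto (fun N : ℕ => avg x f N) atTop (𝓝 (∫ t, f t ∂AddCircle.haarAddCircle))
    rw [Metric.tendsto_atTop]
    intro ε hε
    rw [Metric.tendsto_atTop] at hlim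
    obtain ⟨k, hk⟩ := hlim (ε / 3) (by positivity)
    have hk := hk k le_rfl
    rw [dist_eq_norm] at hk
    have hu' : Tendsto (fun N : ℕ => avg x (u k) N) atTop
      (𝓝 (∫ t, u k t ∂AddCircle.haarAddCircle)) := hu k
    rw [Metric.tendsto_atTop] at hu'
    obtain ⟨N₀, hN₀⟩ := hu' (ε / 3) (by positivity)
    refine ⟨N₀, fun N hN => ?_⟩
    have h1 := hN₀ N hN
    have h2 := avg_diff_le x (u k) f N
    have h3 : dist (∫ t, u k t ∂AddCircle.haarAddCircle) (∫ t, f t ∂AddCircle.haarAddCircle)
        ≤ ‖u k - f‖ := by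
      rw [dist_eq_norm, ← integral_sub ((u k).continuous.integrable_of_hasCompactSupport
            (HasCompactSupport.of_compactSpace _)) (f.continuous.integrable_of_hasCompactSupport
            (HasCompactSupport.of_compactSpace _))]
      have := norm_integral_le_of_norm_le_const (μ := AddCircle.haarAddCircle (T := (1 : ℝ)))
        (f := fun t => u k t - f t) (C := ‖u k - f‖)
        (Filter.Eventually.of_forall (fun t => (u k - f).norm_coe_le_norm t))
      simpa using this
    calc dist (avg x f N) (∫ t, f t ∂AddCircle.haarAddCircle)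
        ≤ dist (avg x f N) (avg x (u k) N) + dist (avg x (u k) N)
            (∫ t, u k t ∂AddCircle.haarAddCircle) +
            dist (∫ t, u k t ∂AddCircle.haarAddCircle) (∫ t, f t ∂AddCircle.haarAddCircle) :=
          dist_triangle4 _ _ _ _
      _ < ε := by
          rw [dist_comm (avg x f N), dist_eq_norm (avg x (u k) N) (avg x f N)]
          linarith
  have hle : Submodule.span ℂ (Set.range (fourier (T := (1 : ℝ)))) ≤ S := by
    rw [Submodule.span_le]
    rintro _ ⟨n, rfl⟩
    by_cases hn : n = 0
    · subst hn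
      change Tendsto (fun N : ℕ => avg x (fourier 0) N) atTop
        (𝓝 (∫ t, fourier 0 t ∂AddCircle.haarAddCircle))
      have : ∫ t : Circ, fourier 0 t ∂AddCircle.haarAddCircle = 1 := by
        simp only [fourier_zero]
        simp
      rw [this]
      refine tendsto_const_nhds.congr' ?_
      filter_upwards [eventually_gt_atTop 0] with N hN
      unfold avg
      simp only [fourier_zero]
      have : (N : ℂ) ≠ 0 := by exact_mod_cast hN.ne'
      simp [this]
    · change Tendsto (fun N : ℕ => avg x (fourier n) N) atTop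
        (𝓝 (∫ t, fourier n t ∂AddCircle.haarAddCircle))
      rw [integral_fourier_ne hn]
      exact h n hn
  have htop : (⊤ : Submodule ℂ C(Circ, ℂ)) ≤ S := by
    rw [← span_fourier_closure_eq_top (T := (1 : ℝ))]
    exact Submodule.topologicalClosure_minimal _ hle hclosed
  exact htop (Submodule.mem_top : f ∈ ⊤)

/-- The tent-like function equal to `1` on the closed ball and supported in a bigger one. -/
noncomputable def bump (c : Circ) (r δ : ℝ) : C(Circ, ℂ) where
  toFun y := ((max 0 (min 1 ((r + δ - dist y c) / δ)) : ℝ) : ℂ)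
  continuous_toFun := by fun_prop

lemma bump_re (c : Circ) (r δ : ℝ) (y : Circ) :
    (bump c r δ y).re = max 0 (min 1 ((r + δ - dist y c) / δ)) := by
  simp [bump]

lemma one_le_bump {c : Circ} {r δ : ℝ} (hδ : 0 < δ) {y : Circ} (hy : dist y c ≤ r) :
    1 ≤ (bump c r δ y).re := by
  rw [bump_re]
  apply le_max_of_le_right
  apply le_min le_rfl
  rw [le_div_iff₀ hδ]
  linarith

lemma integral_bump_le (c : Circ) {r δ : ℝ} (hr : 0 ≤ r) (hδ : 0 < δ) :
    (∫ t, bump c r δ t ∂AddCircle.haarAddCircle).re ≤ 2 * (r + δ) := by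
  have h1 : (∫ t, bump c r δ t ∂AddCircle.haarAddCircle) =
      ((∫ t, max 0 (min 1 ((r + δ - dist t c) / δ)) ∂AddCircle.haarAddCircle : ℝ) : ℂ) := by
    exact integral_ofReal (𝕜 := ℂ) (f := fun t : Circ => max 0 (min 1 ((r + δ - dist t c) / δ)))
  rw [h1, Complex.ofReal_re]
  have hvol : (volume : Measure Circ) = AddCircle.haarAddCircle := by
    rw [AddCircle.volume_eq_smul_haarAddCircle]
    simp
  rw [← hvol]
  have h2 : (∫ t : Circ, max 0 (min 1 ((r + δ - dist t c) / δ))) ≤
      ∫ t : Circ, (Metric.closedBall c (r + δ)).indicator (fun _ => (1 : ℝ)) t := by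
    apply integral_mono
    · exact Continuous.integrable_of_hasCompactSupport (by fun_prop)
        (HasCompactSupport.of_compactSpace _)
    · apply (integrable_indicator_iff Metric.isClosed_closedBall.measurableSet).2
      exact (integrable_const (1 : ℝ)).integrableOn
    · intro t
      by_cases ht : t ∈ Metric.closedBall c (r + δ)
      · simp only [Set.indicator_of_mem ht]
        exact max_le (by norm_num) (min_le_left _ _)
      · simp only [Set.indicator_of_notMem ht]
        rw [Metric.mem_closedBall, not_le] at ht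
        apply max_le le_rfl
        apply (min_le_right _ _).trans
        apply div_nonpos_of_nonpos_of_nonneg _ hδ.le
        linarith
  refine h2.trans ?_
  rw [integral_indicator Metric.isClosed_closedBall.measurableSet, setIntegral_const, smul_eq_mul,
    mul_one, Measure.real, AddCircle.volume_closedBall]
  rw [ENNReal.toReal_ofReal (le_min (by norm_num) (by positivity))]
  exact min_le_right _ _

lemma digit_dist {b : ℕ} (hb : 2 ≤ b) (ξ : ℝ) (j : ℕ) {d : ℕ}
    (h : digit b ξ (j + 1) = (d : ℤ)) :
    dist (((b : ℝ) ^ j * ξ : ℝ) : Circ) (((d + 1 / 2) / b : ℝ) : Circ) ≤ 1 / (2 * b) := by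
  have hb0 : (0 : ℝ) < b := by positivity
  unfold digit at h
  set m : ℤ := ⌊(b : ℝ) ^ (j + 1) * ξ⌋ with hm
  have hdiv := Int.emod_add_mul_ediv m b
  rw [h] at hdiv
  set q : ℤ := m / b with hq
  have hm1 : (m : ℝ) ≤ (b : ℝ) ^ (j + 1) * ξ := Int.floor_le _
  have hm2 : (b : ℝ) ^ (j + 1) * ξ < m + 1 := Int.lt_floor_add_one _
  have hmq : (m : ℝ) = d + b * q := by exact_mod_cast hdiv.symm
  have hcoe : (((b : ℝ) ^ j * ξ : ℝ) : Circ) = (((b : ℝ) ^ j * ξ - q : ℝ) : Circ) := by
    rw [AddCircle.coe_sub]
    have : ((q : ℝ) : Circ) = 0 := by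
      have := AddCircle.coe_period (1 : ℝ)
      have h2 : ((q : ℝ) : Circ) = q • ((1 : ℝ) : Circ) := by
        rw [← AddCircle.coe_zsmul]; simp
      rw [h2, this, smul_zero]
    rw [this, sub_zero]
  rw [hcoe, dist_eq_norm, ← AddCircle.coe_sub]
  have hn := UnitAddCircle.norm_eq (x := (b : ℝ) ^ j * ξ - q - (d + 1 / 2) / b)
  refine hn.trans_le ((round_le _ 0).trans ?_)
  rw [Int.cast_zero, sub_zero]
  have hexp : (b : ℝ) ^ j * ξ - q - (d + 1 / 2) / b =
      ((b : ℝ) ^ (j + 1) * ξ - m - 1 / 2) / b := by
    rw [hmq, pow_succ]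
    field_simp
    ring
  rw [hexp, abs_div, abs_of_pos hb0, div_le_div_iff₀ hb0 (by positivity)]
  have : |(b : ℝ) ^ (j + 1) * ξ - m - 1 / 2| ≤ 1 / 2 := by
    rw [abs_le]
    constructor <;> linarith
  nlinarith

/-- The number of occurrences of the digit `d` among the first `N` digits. -/
noncomputable def cnt (b : ℕ) (ξ : ℝ) (d N : ℕ) : ℕ :=
  ((Finset.Icc 1 N).filter (fun j => digit b ξ j = (d : ℤ))).card

lemma cnt_eq (b : ℕ) (ξ : ℝ) (d N : ℕ) :
    (cnt b ξ d N : ℝ) = ∑ j ∈ Finset.range N, if digit b ξ (j + 1) = (d : ℤ) then (1 : ℝ) else 0 := by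
  unfold cnt
  induction N with
  | zero => simp
  | succ n ih =>
    rw [Finset.sum_range_succ, ← ih, ← Finset.insert_Icc_right_eq_Icc_add_one (by omega),
      Finset.filter_insert]
    split_ifs with h
    · rw [Finset.card_insert_of_notMem (by simp)]
      push_cast
      ring
    · simp

lemma sum_cnt {b : ℕ} (hb : 2 ≤ b) (ξ : ℝ) (N : ℕ) :
    ∑ d ∈ Finset.range b, (cnt b ξ d N : ℝ) = N := by
  simp only [cnt_eq]
  rw [Finset.sum_comm]
  have : ∀ j ∈ Finset.range N, ∑ d ∈ Finset.range b,
      (if digit b ξ (j + 1) = (d : ℤ) then (1 : ℝ) else 0) = 1 := by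
    intro j _
    have h0 : 0 ≤ digit b ξ (j + 1) := Int.emod_nonneg _ (by omega)
    have h1 : digit b ξ (j + 1) < b := Int.emod_lt_of_pos _ (by omega)
    obtain ⟨k, hk⟩ := Int.eq_ofNat_of_zero_le h0
    rw [hk] at h1 ⊢
    have hkb : k < b := by exact_mod_cast h1
    simp only [Nat.cast_inj]
    rw [Finset.sum_ite_eq]
    simp [hkb]
  rw [Finset.sum_congr rfl this]
  simp

theorem simplyNormal_of_weyl (b : ℕ) (hb : 2 ≤ b) (ξ : ℝ)
    (h : ∀ m : ℕ, 1 ≤ m → Tendsto (fun N : ℕ =>
      ‖∑ j ∈ Finset.range N, e (m * b ^ j * ξ)‖ / N) atTop (𝓝 0)) :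
    SimplyNormal b ξ := by
  have hb0 : (0 : ℝ) < b := by positivity
  set x : ℕ → Circ := fun j => (((b : ℝ) ^ j * ξ : ℝ) : Circ) with hx
  -- Weyl sums
  have hpos : ∀ m : ℕ, 1 ≤ m → Tendsto (fun N : ℕ => avg x (fourier (m : ℤ)) N) atTop (𝓝 0) := by
    intro m hm
    rw [tendsto_zero_iff_norm_tendsto_zero]
    refine (h m hm).congr ?_
    intro N
    unfold avg
    rw [norm_div, Complex.norm_natCast]
    congr 2
    apply Finset.sum_congr rfl
    intro j _
    rw [hx, fourier_coe_apply]
    unfold e
    congr 1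
    push_cast
    ring
  have hall : ∀ n : ℤ, n ≠ 0 → Tendsto (fun N : ℕ => avg x (fourier n) N) atTop (𝓝 0) := by
    intro n hn
    rcases lt_or_gt_of_ne hn with hneg | hpos'
    · obtain ⟨m, hm⟩ := Int.eq_ofNat_of_zero_le (by omega : 0 ≤ -n)
      have hm1 : 1 ≤ m := by omega
      have := hpos m hm1
      rw [tendsto_zero_iff_norm_tendsto_zero] at this ⊢
      refine this.congr ?_
      intro N
      unfold avg
      rw [norm_div, norm_div]
      congr 1
      have hnm : n = -(m : ℤ) := by omega
      rw [hnm]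
      simp only [fourier_neg]
      rw [← map_sum (starRingEnd ℂ), RCLike.norm_conj]
    · obtain ⟨m, hm⟩ := Int.eq_ofNat_of_zero_le (by omega : 0 ≤ n)
      subst hm
      exact hpos m (by omega)
  have hcont := avg_continuous x hall
  -- the upper bound
  have hupper : ∀ ε : ℝ, 0 < ε → ∀ d : ℕ, ∀ᶠ N : ℕ in atTop,
      (cnt b ξ d N : ℝ) / N < 1 / b + ε := by
    intro ε hε d
    set c : Circ := (((d + 1 / 2) / b : ℝ) : Circ) with hc
    have hlim := hcont (bump c (1 / (2 * b)) (ε / 4))
    have hre := (Complex.continuous_re.tendsto _).comp hlim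
    have hI := integral_bump_le c (r := 1 / (2 * b)) (δ := ε / 4) (by positivity) (by positivity)
    have hlt : (∫ t, bump c (1 / (2 * b)) (ε / 4) t ∂AddCircle.haarAddCircle).re < 1 / b + ε := by
      refine hI.trans_lt ?_
      have : 2 * (1 / (2 * (b : ℝ)) + ε / 4) = 1 / b + ε / 2 := by
        field_simp
        ring
      rw [this]
      linarith
    filter_upwards [hre.eventually (gt_mem_nhds hlt)] with N hN
    refine lt_of_le_of_lt ?_ hN
    simp only [Function.comp_apply, avg]
    have hdiv : ((∑ j ∈ Finset.range N, bump c (1 / (2 * b)) (ε / 4) (x j)) / (N : ℂ)).re =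
        (∑ j ∈ Finset.range N, (bump c (1 / (2 * b)) (ε / 4) (x j)).re) / N := by
      rw [← Complex.ofReal_natCast, Complex.div_ofReal_re, Complex.re_sum]
    rw [hdiv, cnt_eq]
    apply div_le_div_of_nonneg_right _ (Nat.cast_nonneg N)
    apply Finset.sum_le_sum
    intro j _
    split_ifs with hd
    · exact one_le_bump (by positivity) (digit_dist hb ξ j hd)
    · rw [bump_re]
      exact le_max_left _ _
  intro d hd
  change Tendsto (fun N : ℕ => (cnt b ξ d N : ℝ) / N) atTop (𝓝 (1 / b))
  rw [Metric.tendsto_nhds]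
  intro ε hε
  have hev : ∀ᶠ N : ℕ in atTop, ∀ d' ∈ Finset.range b,
      (cnt b ξ d' N : ℝ) / N < 1 / b + ε / b := by
    rw [Filter.eventually_all_finset]
    intro d' _
    exact hupper (ε / b) (by positivity) d'
  filter_upwards [hev, eventually_gt_atTop 0] with N hN hN0
  have hN0' : (0 : ℝ) < N := by exact_mod_cast hN0
  have hsum : ∑ d' ∈ Finset.range b, (cnt b ξ d' N : ℝ) / N = 1 := by
    rw [← Finset.sum_div, sum_cnt hb]
    exact div_self hN0'.ne'
  have hdm : d ∈ Finset.range b := Finset.mem_range.2 hd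
  have hεb : ε / b < ε := by
    rw [div_lt_iff₀ hb0]
    have : (2 : ℝ) ≤ b := by exact_mod_cast hb
    nlinarith
  rw [Real.dist_eq, abs_lt]
  constructor
  · rw [← Finset.add_sum_erase _ _ hdm] at hsum
    have hle : ∑ d' ∈ (Finset.range b).erase d, (cnt b ξ d' N : ℝ) / N ≤
        ((b : ℝ) - 1) * (1 / b + ε / b) := by
      calc ∑ d' ∈ (Finset.range b).erase d, (cnt b ξ d' N : ℝ) / N
          ≤ ∑ d' ∈ (Finset.range b).erase d, (1 / b + ε / b) := by
            apply Finset.sum_le_sum
            intro d' hd'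
            exact (hN d' (Finset.mem_of_mem_erase hd')).le
        _ = ((b : ℝ) - 1) * (1 / b + ε / b) := by
            rw [Finset.sum_const, Finset.card_erase_of_mem hdm, Finset.card_range, nsmul_eq_mul,
              Nat.cast_sub (by omega), Nat.cast_one]
    have hexp : ((b : ℝ) - 1) * (1 / b + ε / b) = 1 - 1 / b + ε - ε / b := by
      field_simp
      ring
    have : 0 < ε / b := by positivity
    linarith
  · have := hN d hdm
    linarith

end Pool.Agent.Lib_helper71.Normal
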